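import Pool.Agent.H258.AM.Amal

/-!
# Stallings' conjecture `B_n(p)`: free products, amalgamated products and locality

For a subgroup `S` of a group `F` and a fixed `n` consider the implication of `B_n(p)`: if `a` in `S`
is a product of `F`-conjugates of `g_1, ..., g_n` in `S`, then it is a product of `S`-conjugates of
these elements.  It holds for the subgroup generated by `S₁ ≤ F₁` and `S₂ ≤ F₂` in the free product of
`F₁` and `F₂` if and only if it holds for both pairs, and the same is true for the condition on the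
first homology.
-/

set_option autoImplicit false
open scoped TensorProduct

namespace Pool.Agent.Results.MP_e9d015_al.FreeProducts

open Monoid

universe u v

/-- `a` is a product of `G`-conjugates of `g 0, ..., g (n-1)` -/
def DependentOn {G : Type*} [Group G] {n : ℕ} (a : G) (g : Fin n → G) : Prop :=
  ∃ c : Fin n → G, a = (List.ofFn fun i => c i * g i * (c i)⁻¹).prod

/-- the implication of `B_n(p)` for the subgroup `S` of `F`: if `a` in `S` is dependent in `F` on
`g 0, ..., g (n-1)` in `S`, then it is dependent on them in `S` -/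
def Implication (n : ℕ) {F : Type*} [Group F] (S : Subgroup F) : Prop :=
  ∀ (a : S) (g : Fin n → S), DependentOn (a : F) (fun i => (g i : F)) → DependentOn a g

/-- the map `H_1(S; M) → H_1(F; M)` induced by the inclusion of `S` is bijective, where
`H_1(-; M)` is the tensor product of the abelianization and `M` -/
def HOneIso {F : Type u} [Group F] (S : Subgroup F) (M : Type v) [AddCommGroup M] : Prop :=
  Function.Bijective (LinearMap.rTensor M
    (AddMonoidHom.toIntLinearMap (MonoidHom.toAdditive (Abelianization.map S.subtype))))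

/-- `F` is the free product of `F₁` and `F₂` with the canonical maps `j₁` and `j₂` -/
def IsFreeProduct {F F₁ F₂ : Type u} [Group F] [Group F₁] [Group F₂] (j₁ : F₁ →* F)
    (j₂ : F₂ →* F) : Prop :=
  Function.Bijective (Coprod.lift j₁ j₂)

/-- the amalgamated product of `F₁` and `F₂` over `A`, that is, the pushout of `j₁` and `j₂`; here
`famHom j₁ j₂` is the family consisting of the two homomorphisms `j₁` and `j₂` -/
abbrev Amalgam {A F₁ F₂ : Type u} [Group A] [Group F₁] [Group F₂] (j₁ : A →* F₁) (j₂ : A →* F₂) :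
    Type u := PushoutI (Pool.Agent.H258.AM.famHom j₁ j₂)

/-- the subgroup of the amalgamated product generated by the subgroups `S₁` of `F₁` and `S₂` of
`F₂` (`embG` and `embB` are the canonical maps from `F₁` and `F₂` to the amalgamated product) -/
def amalgamSub {A F₁ F₂ : Type u} [Group A] [Group F₁] [Group F₂] (j₁ : A →* F₁) (j₂ : A →* F₂)
    (S₁ : Subgroup F₁) (S₂ : Subgroup F₂) : Subgroup (Amalgam j₁ j₂) :=
  S₁.map (Pool.Agent.H258.AM.embG j₁ j₂) ⊔ S₂.map (Pool.Agent.H258.AM.embB j₁ j₂)

/-- the subgroup of the free product of `G` and `K` generated by `G` and the image of the subgroup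
`T` of the free product of `C` and `K`, where `j` is a homomorphism from `C` to `G` -/
def extend {C G K : Type u} [Group C] [Group G] [Group K] (j : C →* G)
    (T : Subgroup (Coprod C K)) : Subgroup (Coprod G K) :=
  (Coprod.inl : G →* Coprod G K).range ⊔ T.map (Coprod.map j (MonoidHom.id K))

/-- The subgroup `S` of the free group of rank `k` decomposes freely: the free group is the free
product of free groups of ranks `a < k` and `b < k`, and `S` is generated by subgroups of the two
factors. -/
def Decomposable {k : ℕ} (S : Subgroup (FreeGroup (Fin k))) : Prop :=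
  ∃ (a b : ℕ) (j₁ : FreeGroup (Fin a) →* FreeGroup (Fin k))
    (j₂ : FreeGroup (Fin b) →* FreeGroup (Fin k)) (S₁ : Subgroup (FreeGroup (Fin a)))
    (S₂ : Subgroup (FreeGroup (Fin b))),
    a < k ∧ b < k ∧ IsFreeProduct j₁ j₂ ∧ S = S₁.map j₁ ⊔ S₂.map j₂

theorem freeProduct {F F₁ F₂ : Type u} [Group F] [Group F₁] [Group F₂] (j₁ : F₁ →* F)
    (j₂ : F₂ →* F) (h : IsFreeProduct j₁ j₂) (S₁ : Subgroup F₁) (S₂ : Subgroup F₂) :
    (∀ n : ℕ, Implication n (S₁.map j₁ ⊔ S₂.map j₂) ↔ Implication n S₁ ∧ Implication n S₂) ∧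
      (∀ (M : Type v) [AddCommGroup M],
        HOneIso (S₁.map j₁ ⊔ S₂.map j₂) M ↔ HOneIso S₁ M ∧ HOneIso S₂ M) := by
  let e : Coprod F₁ F₂ ≃* F := MulEquiv.ofBijective (Coprod.lift j₁ j₂) h
  have he : S₁.map j₁ ⊔ S₂.map j₂ =
      (S₁.map (Coprod.inl : F₁ →* Coprod F₁ F₂) ⊔
        S₂.map (Coprod.inr : F₂ →* Coprod F₁ F₂)).map (e : Coprod F₁ F₂ →* F) := by
    rw [Subgroup.map_sup, Subgroup.map_map, Subgroup.map_map]
    rfl
  rw [he]
  refine ⟨fun n => ?_, fun M _ => ?_⟩
  · exact (Pool.Agent.H258.AM.depAt_map e _).trans (Pool.Agent.H258.AM.depAt_coprod S₁ S₂)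
  · exact (Pool.Agent.H258.AM.hMap_map M e _).trans (Pool.Agent.H258.AM.hOne_coprod S₁ S₂ M)

theorem reduction (n p : ℕ)
    (h : ∀ (k : ℕ) (S : Subgroup (FreeGroup (Fin k))), ¬ Decomposable S →
      HOneIso S (ZMod p) → Implication n S) :
    ∀ (k : ℕ) (S : Subgroup (FreeGroup (Fin k))), HOneIso S (ZMod p) → Implication n S := by
  intro k
  induction k using Nat.strong_induction_on with
  | _ k ih =>
    intro S hS
    by_cases hd : Decomposable S
    · obtain ⟨a, b, j₁, j₂, S₁, S₂, ha, hb, hj, rfl⟩ := hd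
      obtain ⟨h1, h2⟩ := freeProduct j₁ j₂ hj S₁ S₂
      obtain ⟨h3, h4⟩ := (h2 (ZMod p)).1 hS
      exact (h1 n).2 ⟨ih a ha S₁ h3, ih b hb S₂ h4⟩
    · exact h k S hd hS

/-- **Free products, amalgamated products and locality for Stallings' `B_n(p)`.**

(1) Let `F` be the free product of `F₁` and `F₂`, let `S₁` and `S₂` be subgroups of `F₁` and `F₂` and
`S` the subgroup of `F` generated by them. For every `n` the implication of `B_n(p)` holds for `S` in
`F` if and only if it holds for `S₁` in `F₁` and for `S₂` in `F₂`. For every `M` the map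
`H_1(S; M) → H_1(F; M)` is bijective if and only if the maps `H_1(S₁; M) → H_1(F₁; M)` and
`H_1(S₂; M) → H_1(F₂; M)` are.

(2) Let `A` be embedded in `S₁ ≤ F₁` and in `S₂ ≤ F₂`. For every `n`, if the implication holds for
`S₁` in `F₁` and for `S₂` in `F₂`, then it holds for the subgroup generated by `S₁` and `S₂` in the
amalgamated product of `F₁` and `F₂` over `A`.

(3) Let `T` be a subgroup of the free product of `C` and `K` which contains `C`. For every `n` the
implication holds for `T` if and only if, for all groups `G` in which `C` is embedded, it holds for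
the subgroup of the free product of `G` and `K` generated by `G` and `T`.

(4) For all `n` and `p`, the assertion `B_n(p)` is equivalent to its restriction to the subgroups
`S` of free groups of finite rank which do not decompose freely. -/
theorem result :
    (∀ (F F₁ F₂ : Type u) [Group F] [Group F₁] [Group F₂] (j₁ : F₁ →* F) (j₂ : F₂ →* F),
      IsFreeProduct j₁ j₂ → ∀ (S₁ : Subgroup F₁) (S₂ : Subgroup F₂),
        (∀ n : ℕ, Implication n (S₁.map j₁ ⊔ S₂.map j₂) ↔ Implication n S₁ ∧ Implication n S₂) ∧
        (∀ (M : Type v) [AddCommGroup M],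
          HOneIso (S₁.map j₁ ⊔ S₂.map j₂) M ↔ HOneIso S₁ M ∧ HOneIso S₂ M)) ∧
    (∀ (A F₁ F₂ : Type u) [Group A] [Group F₁] [Group F₂] (j₁ : A →* F₁) (j₂ : A →* F₂),
      Function.Injective j₁ → Function.Injective j₂ →
      ∀ (S₁ : Subgroup F₁) (S₂ : Subgroup F₂), j₁.range ≤ S₁ → j₂.range ≤ S₂ →
        ∀ n : ℕ, Implication n S₁ → Implication n S₂ → Implication n (amalgamSub j₁ j₂ S₁ S₂)) ∧
    (∀ (C K : Type u) [Group C] [Group K] (T : Subgroup (Coprod C K)),
      (Coprod.inl : C →* Coprod C K).range ≤ T → ∀ n : ℕ,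
        (Implication n T ↔ ∀ (G : Type u) [Group G] (j : C →* G), Function.Injective j →
          Implication n (extend j T))) ∧
    (∀ n p : ℕ,
      (∀ (k : ℕ) (S : Subgroup (FreeGroup (Fin k))), HOneIso S (ZMod p) → Implication n S) ↔
      ∀ (k : ℕ) (S : Subgroup (FreeGroup (Fin k))), ¬ Decomposable S →
        HOneIso S (ZMod p) → Implication n S) := by
  refine ⟨?_, ?_, ?_, fun n p => ⟨fun h k S _ hS => h k S hS, reduction n p⟩⟩
  · intro F F₁ F₂ _ _ _ j₁ j₂ h S₁ S₂
    exact freeProduct j₁ j₂ h S₁ S₂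
  · intro A F₁ F₂ _ _ _ j₁ j₂ h₁ h₂ S₁ S₂ m₁ m₂ n d₁ d₂
    exact Pool.Agent.H258.AM.depAt_amalgam j₁ j₂ h₁ h₂ S₁ S₂ (fun a => m₁ ⟨a, rfl⟩)
      (fun a => m₂ ⟨a, rfl⟩) d₁ d₂
  · intro C K _ _ T hT n
    constructor
    · intro h G _ j hj
      exact Pool.Agent.H258.AM.depAt_local j hj T hT h
    · intro h
      have h1 := h C (MonoidHom.id C) Function.injective_id
      have h2 : extend (MonoidHom.id C) T = T := by
        unfold extend
        rw [Coprod.map_id_id, Subgroup.map_id]
        exact sup_eq_right.2 hT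
      rw [h2] at h1
      exact h1

end Pool.Agent.Results.MP_e9d015_al.FreeProducts
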