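import Pool.Agent.H408.ND.Main2

/-!
# What abelian-by-`p` images see of dependence

Let `S ≤ F` be as in `B_n(p)` and let `g_1, …, g_n` in `S` span `H_1(S; ℤ/p)`.  The images of `F` and of
`S` in the groups with an abelian normal subgroup of `p`-power index (for instance the finite
`p`-groups) see of the elements dependent on `g_1, …, g_n` exactly the coset `g_1 ⋯ g_n [S, S]`; if the
`g_i` generate `S` modulo commutators, so do all abelian-by-nilpotent images of `S`.  If `S` is not
abelian, the coset contains elements which are not products of `F`-conjugates of `g_1, …, g_n`.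
-/

set_option autoImplicit false
open scoped TensorProduct

namespace Pool.Agent.Results.MP_e9d015_al.NilpotentCosets

/-- `a` is a product of `G`-conjugates of `g_1, …, g_n` -/
def DependentOn {G : Type} [Group G] {n : ℕ} (a : G) (g : Fin n → G) : Prop :=
  ∃ c : Fin n → G, a = (List.ofFn fun i => c i * g i * (c i)⁻¹).prod

/-- `g_1, …, g_n` generate the group `S` together with all commutators -/
def GenerateModComm {S : Type} [Group S] {n : ℕ} (g : Fin n → S) : Prop :=
  Subgroup.closure (Set.range g) ⊔ commutator S = ⊤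

/-- `g_1, …, g_n` generate the group `S` together with all commutators and all `p`-th powers, i.e.
they span `H_1(S; ℤ/p)` -/
def SpanModP (p : ℕ) {S : Type} [Group S] {n : ℕ} (g : Fin n → S) : Prop :=
  Subgroup.closure (Set.range g) ⊔
    (commutator S ⊔ Subgroup.closure (Set.range fun x : S => x ^ p)) = ⊤

/-- the inclusion of `S` induces an isomorphism of the first homology groups modulo `p`
(the hypothesis of `B_n(p)`) -/
def HOneIso (p : ℕ) {F : Type} [Group F] (S : Subgroup F) : Prop :=
  Function.Bijective (LinearMap.rTensor (ZMod p)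
    (AddMonoidHom.toIntLinearMap (MonoidHom.toAdditive (Abelianization.map S.subtype))))

/-- abelian-by-nilpotent groups: some term of the lower central series is abelian -/
def AbelianByNilpotent (N : Type) [Group N] : Prop :=
  ∃ k : ℕ, ∀ x ∈ Subgroup.lowerCentralSeries (⊤ : Subgroup N) k,
    ∀ y ∈ Subgroup.lowerCentralSeries (⊤ : Subgroup N) k, x * y = y * x

/-- the group has an abelian normal subgroup of index a power of `p` -/
def AbelianByP (p : ℕ) (N : Type) [Group N] : Prop :=
  ∃ (A : Subgroup N) (m : ℕ), A.Normal ∧ (∀ x ∈ A, ∀ y ∈ A, x * y = y * x) ∧ A.index = p ^ m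

/-- **What abelian-by-`p` images and abelian-by-nilpotent images see of dependence.** -/
theorem result (n p : ℕ) (hp : p.Prime) (F : Type) [Group F] [IsFreeGroup F] (S : Subgroup F)
    (hH : HOneIso p S) (g : Fin n → S) (hg : SpanModP p g) :
    (∀ a : S,
      -- all abelian-by-`p` images of `S`, with conjugating elements from `S`
      ((∀ (N : Type) [Group N], AbelianByP p N → ∀ f : S →* N,
          ∃ c : Fin n → S, f a = f (List.ofFn fun i => c i * g i * (c i)⁻¹).prod) ↔
        (List.ofFn g).prod⁻¹ * a ∈ commutator S) ∧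
      -- all images of `F` in finite `p`-groups, with arbitrary conjugating elements
      ((∀ (P : Type) [Group P] [Finite P], IsPGroup p P → ∀ f : F →* P,
          DependentOn (f a) (fun i => f (g i))) ↔
        (List.ofFn g).prod⁻¹ * a ∈ commutator S) ∧
      -- all abelian-by-nilpotent images of `S`, with conjugating elements from `S`
      (GenerateModComm g →
        ((∀ (N : Type) [Group N], AbelianByNilpotent N → ∀ f : S →* N,
          ∃ c : Fin n → S, f a = f (List.ofFn fun i => c i * g i * (c i)⁻¹).prod) ↔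
        (List.ofFn g).prod⁻¹ * a ∈ commutator S))) ∧
    -- the coset is larger than the set of the products of conjugates
    ((¬ ∀ x y : S, x * y = y * x) → ∃ a : S, (List.ofFn g).prod⁻¹ * a ∈ commutator S ∧
      ¬ DependentOn (a : F) (fun i => (g i : F))) := by
  have weak : ∀ {N : Type} [Group N] (f : S →* N) (a : S),
      (∃ c : Fin n → S, f a = f (List.ofFn fun i => c i * g i * (c i)⁻¹).prod) →
      DependentOn (f a) (fun i => f (g i)) := by
    rintro N _ f a ⟨c, hc⟩
    exact ⟨fun i => f (c i), by rw [hc, Pool.Agent.H408.ND.dep_map]⟩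
  refine ⟨fun a => ?_, fun hS => Pool.Agent.H408.ND.exists_coset S hS g⟩
  have hp' : Fact p.Prime := ⟨hp⟩
  have h1 : (List.ofFn g).prod⁻¹ * a ∈ commutator S →
      ∀ (N : Type) [Group N], AbelianByP p N → ∀ f : S →* N,
        ∃ c : Fin n → S, f a = f (List.ofFn fun i => c i * g i * (c i)⁻¹).prod := by
    rintro h N _ ⟨A, m, hA, hc, hm⟩ f
    exact Pool.Agent.H408.ND.dep_ab_p g hg h A hc hm f
  have h2 : (∀ (N : Type) [Group N], AbelianByP p N → ∀ f : S →* N,
        ∃ c : Fin n → S, f a = f (List.ofFn fun i => c i * g i * (c i)⁻¹).prod) →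
      ∀ (P : Type) [Group P] [Finite P], IsPGroup p P → ∀ f : F →* P,
        DependentOn (f a) (fun i => f (g i)) := by
    intro h P _ _ hP f
    refine weak (f.comp S.subtype) a (h P ?_ (f.comp S.subtype))
    obtain ⟨m, hm⟩ := IsPGroup.iff_card.1 hP
    refine ⟨⊥, m, inferInstance, ?_, ?_⟩
    · intro x hx y hy
      rw [Subgroup.mem_bot.1 hx, Subgroup.mem_bot.1 hy]
    · rw [Subgroup.index_bot, hm]
  refine ⟨⟨fun h => Pool.Agent.H408.ND.mem_of_dep_p hp S hH.1 (h2 h), h1⟩,
    ⟨fun h => Pool.Agent.H408.ND.mem_of_dep_p hp S hH.1 h, fun h => h2 (h1 h)⟩, fun hg' => ?_⟩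
  refine ⟨fun h => Pool.Agent.H408.ND.mem_of_dep_nil fun N _ hN f => weak f a (h N ?_ f),
    fun h N _ hN f => ?_⟩
  · obtain ⟨k, hk⟩ := Subgroup.nilpotent_iff_lowerCentralSeries.1 hN
    refine ⟨k, fun x hx y hy => ?_⟩
    rw [hk] at hx hy
    rw [Subgroup.mem_bot.1 hx, Subgroup.mem_bot.1 hy]
  · obtain ⟨k, hk⟩ := hN
    exact Pool.Agent.H408.ND.dep_lcs g hg' h k hk f

end Pool.Agent.Results.MP_e9d015_al.NilpotentCosets
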