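import Pool.Agent.H408.ND.Main2

/-!
# Products of two nontrivial conjugacy classes in abelian-by-nilpotent images

Let `S` be a nonabelian subgroup of a free group `F` and let `g_1, …, g_n` be elements of `S`, at least
two of them nontrivial.  Then there is an `a` in `S` which is not a product of `F`-conjugates of
`g_1, …, g_n`, although under every homomorphism from `S` to an abelian-by-nilpotent group (in
particular to a nilpotent group, to a finite `p`-group, to a metabelian group) it has the same image
as a product of `S`-conjugates of `g_1, …, g_n`.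

For `S = F`: a product of conjugacy classes of a nonabelian free group, at least two of them
nontrivial, is never closed in the pro-nilpotent topology, in the pro-`p` topologies, or in the
topology given by all abelian-by-nilpotent quotients.
-/

set_option autoImplicit false

namespace Pool.Agent.Results.MP_e9d015_al.TwoNontrivialClasses

/-- `a` is a product of `G`-conjugates of `g_1, …, g_n` -/
def DependentOn {G : Type} [Group G] {n : ℕ} (a : G) (g : Fin n → G) : Prop :=
  ∃ c : Fin n → G, a = (List.ofFn fun i => c i * g i * (c i)⁻¹).prod

/-- abelian-by-nilpotent groups: some term of the lower central series is abelian -/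
def AbelianByNilpotent (N : Type) [Group N] : Prop :=
  ∃ k : ℕ, ∀ x ∈ Subgroup.lowerCentralSeries (⊤ : Subgroup N) k,
    ∀ y ∈ Subgroup.lowerCentralSeries (⊤ : Subgroup N) k, x * y = y * x

/-- **Abelian-by-nilpotent images never suffice to detect that an element is not a product of
conjugates of given elements, at least two of them nontrivial.** -/
theorem result (F : Type) [Group F] [IsFreeGroup F] (S : Subgroup F)
    (hS : ¬ ∀ x y : S, x * y = y * x) (n : ℕ) (g : Fin n → S)
    (hg : ∃ i j : Fin n, i ≠ j ∧ g i ≠ 1 ∧ g j ≠ 1) :
    ∃ a : S, ¬ DependentOn (a : F) (fun i => (g i : F)) ∧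
      ∀ (N : Type) [Group N], AbelianByNilpotent N → ∀ f : S →* N,
        ∃ b : S, DependentOn b g ∧ f a = f b := by
  obtain ⟨i, j, hij, hi, hj⟩ := hg
  obtain ⟨a, h1, h2⟩ := Pool.Agent.H408.ND.exists_sep_lcs S hS g hij hi hj
  refine ⟨a, h1, fun N _ hN f => ?_⟩
  obtain ⟨k, hk⟩ := hN
  obtain ⟨c, hc⟩ := h2 N k hk f
  exact ⟨_, ⟨c, rfl⟩, hc⟩

end Pool.Agent.Results.MP_e9d015_al.TwoNontrivialClasses
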